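import Mathlib
import Pool.Agent.H.MP_3baeb2_co.Circ

set_option autoImplicit false

namespace Pool.Agent.Results.MP_fe6464_co.Yes

open Pool.Agent.H.MP_3baeb2_co.Circ

/-- proper colouring with `k` colours -/
def Proper {V : Type} (G : SimpleGraph V) (k : ℕ) (f : V → Fin k) : Prop := ∀ u v, G.Adj u v → f u ≠ f v

/-- `k`-mixing -/
def KMixing {V : Type} (G : SimpleGraph V) (k : ℕ) : Prop :=
  ∀ f g : V → Fin k, Proper G k f → Proper G k g → Relation.ReflTransGen
    (fun a b => Proper G k a ∧ Proper G k b ∧ ∃ v, ∀ w, w ≠ v → a w = b w) f g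

lemma proper_iff {V : Type} (G : SimpleGraph V) (k : ℕ) : Proper G k = IsCol G k 1 := by
  ext f
  refine forall₃_congr fun u v _ => ?_
  have := (f u).2
  have := (f v).2
  rw [Ne, Fin.ext_iff, le_abs, abs_le]
  omega

lemma km_iff {V : Type} (G : SimpleGraph V) (k : ℕ) : KMixing G k ↔ Mixing G k 1 := by
  unfold KMixing
  rw [proper_iff]
  rfl

theorem result : ∃ (V : Type) (_ : Fintype V) (G : SimpleGraph V), ¬ G.Colorable 2 ∧
    IsGLB {x : ℝ | ∃ l : ℚ, x = l ∧ ∀ k q : ℕ, 0 < k → 0 < q → l ≤ (k : ℚ) / q → Mixing G k q} 5 ∧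
    IsLeast {l : ℕ | ∀ k : ℕ, 1 ≤ k → l ≤ k → KMixing G k} 6 := by
  refine ⟨Option (Fin 7), inferInstance, G, nonbip, glb, fun k _ hk => (km_iff _ _).2 (mix one_pos (by omega)),
    fun l hl => ?_⟩
  by_contra h
  exact nomix ((km_iff _ _).1 (hl 5 (by norm_num) (by omega)))

end Pool.Agent.Results.MP_fe6464_co.Yes
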